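import Pool.Agent.Lib_helper86.RT.Top

set_option autoImplicit false

namespace Pool.Agent.Results.MP_1af41f_co.AlmostAllTrees

/-- Almost every labelled tree is determined, among all finite trees, by its chromatic symmetric
function: among the trees `T` on the vertex set `Fin n`, the proportion of those that are isomorphic
to every finite tree `T₂` with the same chromatic symmetric function (for every exponent vector `α`,
as many proper colourings using colour `i` exactly `α i` times for all `i`) tends to `1` as `n`
tends to infinity. -/
theorem result :
    Filter.Tendsto (fun n : ℕ =>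
        (Nat.card {T : SimpleGraph (Fin n) // T.IsTree ∧
          ∀ (W : Type) [Fintype W] (T₂ : SimpleGraph W), T₂.IsTree →
            (∀ α : ℕ →₀ ℕ,
              Nat.card {c : Fin n → ℕ // (∀ u v, T.Adj u v → c u ≠ c v) ∧
                  ∀ i : ℕ, Nat.card {v : Fin n // c v = i} = α i} =
              Nat.card {c : W → ℕ // (∀ u v, T₂.Adj u v → c u ≠ c v) ∧
                  ∀ i : ℕ, Nat.card {w : W // c w = i} = α i}) →
            Nonempty (T ≃g T₂)} : ℝ) /
        (Nat.card {T : SimpleGraph (Fin n) // T.IsTree} : ℝ))
      Filter.atTop (nhds 1) :=
  RT.almost_all

end Pool.Agent.Results.MP_1af41f_co.AlmostAllTrees
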