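import Pool.Agent.BPT.Graph

set_option autoImplicit false

namespace Pool.Agent.Results.MP_1af41f_co.LongBarePath

/-- The vertices of `T` behind `a`, seen from `b`: those `w` for which every walk from `b` to `w`
passes through `a` (`a` itself is one of them). -/
def behind {V : Type} (T : SimpleGraph V) (b a : V) : Set V := {w | ∀ p : T.Walk b w, a ∈ p.support}

/-- Let `T` be a finite tree and `P` a path of `T` from `a` to `b` whose interior vertices have
degree `2` in `T`. Suppose that the set of the vertices behind `a` seen from `b` and the set of the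
vertices behind `b` seen from `a` both have at most as many elements as `P` has vertices, and at
most half as many as `T` has vertices. Then every tree `T'` with the same chromatic symmetric
function as `T` (for every exponent vector `α`, as many proper colourings using colour `i` exactly
`α i` times for all `i`) is isomorphic to `T`. -/
theorem result {V : Type} [Finite V] (T : SimpleGraph V) (hT : T.IsTree) (a b : V)
    (P : T.Walk a b) (hP : P.IsPath)
    (hdeg : ∀ v ∈ P.support, v ≠ a → v ≠ b → Nat.card (T.neighborSet v) = 2)
    (hA : Nat.card (behind T b a) ≤ P.length + 1)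
    (hB : Nat.card (behind T a b) ≤ P.length + 1)
    (hA' : 2 * Nat.card (behind T b a) ≤ Nat.card V)
    (hB' : 2 * Nat.card (behind T a b) ≤ Nat.card V)
    (V' : Type) [Finite V'] (T' : SimpleGraph V') (hT' : T'.IsTree)
    (hX : ∀ α : ℕ →₀ ℕ,
        Nat.card {κ : V → ℕ // (∀ x y, T.Adj x y → κ x ≠ κ y) ∧
            ∀ i : ℕ, Nat.card {v : V // κ v = i} = α i} =
        Nat.card {κ : V' → ℕ // (∀ x y, T'.Adj x y → κ x ≠ κ y) ∧
            ∀ i : ℕ, Nat.card {v : V' // κ v = i} = α i}) :
    Nonempty (T ≃g T') :=
  Pool.MP_1af41f_co.BPT.main_graph T hT a b P hP hdeg hA hB hA' hB' V' T' hT' hX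

end Pool.Agent.Results.MP_1af41f_co.LongBarePath
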