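import Pool.Agent.Lib_helper17.CSF.Comp

set_option autoImplicit false

namespace Pool.Agent.Results.MP_1af41f_co.WellSplitTrees

open Pool.MP_1af41f_co.CSF

/-- Let `T₁` be a finite tree, `c` a vertex of `T₁` and `z` the largest number of vertices of a
component of `T₁ - c`. Suppose that the components of `T₁ - c` with fewer than `z` vertices have
together at least `2 z` vertices. Then every tree `T₂` with the same chromatic symmetric function
as `T₁` (for every exponent vector `α`, as many proper colourings using colour `i` exactly `α i`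
times for all `i`) is isomorphic to `T₁`. -/
theorem result (V W : Type) [Fintype V] [Fintype W] (T₁ : SimpleGraph V) (T₂ : SimpleGraph W)
    (hT₁ : T₁.IsTree) (hT₂ : T₂.IsTree) (c : V) (z : ℕ)
    (hle : ∀ K : (T₁.induce {v | v ≠ c}).ConnectedComponent, Nat.card K.supp ≤ z)
    (hex : ∃ K : (T₁.induce {v | v ≠ c}).ConnectedComponent, Nat.card K.supp = z)
    (hsmall : 2 * z ≤ Nat.card {v : {v : V | v ≠ c} //
      Nat.card ((T₁.induce {v | v ≠ c}).connectedComponentMk v).supp < z})
    (hX : ∀ α : ℕ →₀ ℕ,
        Nat.card {c : V → ℕ // (∀ u v, T₁.Adj u v → c u ≠ c v) ∧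
            ∀ i : ℕ, Nat.card {v : V // c v = i} = α i} =
        Nat.card {c : W → ℕ // (∀ u v, T₂.Adj u v → c u ≠ c v) ∧
            ∀ i : ℕ, Nat.card {w : W // c w = i} = α i}) :
    Nonempty (T₁ ≃g T₂) := by
  refine main T₁ T₂ hT₁ hT₂ c z (fun v => hle _) ?_ hsmall hX
  obtain ⟨K, hK⟩ := hex
  induction K using SimpleGraph.ConnectedComponent.ind with
  | _ v => exact ⟨v, hK⟩

end Pool.Agent.Results.MP_1af41f_co.WellSplitTrees
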